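import Pool.Agent.Helper8.SPV.Stmts
import Pool.Agent.Helper8.SPV.PLib

/-! # `ST_AB`: the degree is bounded -/

set_option autoImplicit false

namespace Pool.Agent.Helper8.SPV

open IntermediateField (adjoin)

theorem AB_ne {k K : Type} [Field k] [Field K] [Algebra k K] {T W : K}
    (hW : W ^ 2 = T ^ 3 + 1) (hT : Transcendental k T) : T ≠ 0 ∧ W ≠ 0 := by
  constructor
  · rintro rfl
    exact hT isAlgebraic_zero
  · rintro rfl
    apply hT
    refine ⟨Polynomial.X ^ 3 + 1, ?_, ?_⟩
    · exact (Polynomial.monic_X_pow_add (n := 3) (p := (1 : Polynomial k)) (by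
        rw [Polynomial.degree_one]; norm_num)).ne_zero
    · rw [map_add, map_pow, Polynomial.aeval_X, map_one]
      rw [← hW]
      ring

/-- the number of poles of `W` -/
theorem AB_polesW {k K : Type} [Field k] [IsAlgClosed k] [CharZero k] [Field K] [Algebra k K]
    (h1 : ST_PL1) (h2 : ST_PL2) (hK : IsFF k K) (T W : K) (hW : W ^ 2 = T ^ 3 + 1)
    (hT : Transcendental k T) : 2 * Pl.poles (k := k) W = 3 * Pl.poles (k := k) T := by
  obtain ⟨hT0, hW0⟩ := AB_ne hW hT
  have key : ∀ p : Pl k K, 2 * max 0 (-p.ord W) = 3 * max 0 (-p.ord T) := by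
    intro p
    have L := h1 k K hK p
    have hord : 2 * p.ord W = p.ord (T ^ 3 + 1) := by
      have := L.ord_pow W 2
      rw [hW] at this
      push_cast at this
      linarith
    by_cases hp : p.ord T < 0
    · have h3 : p.ord (T ^ 3) < p.ord 1 := by
        rw [L.ord_pow, L.ord_one]
        push_cast
        linarith
      have h4 := (L.ord_add_of_lt (T ^ 3) 1 (pow_ne_zero _ hT0) (Or.inr h3)).2
      rw [h4, L.ord_pow] at hord
      push_cast at hord
      rw [max_eq_right (by omega), max_eq_right (by omega)]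
      omega
    · have h3 : p.Ge 0 (T ^ 3 + 1) := by
        apply L.ge_add
        · right
          rw [L.ord_pow]
          push_cast
          omega
        · right
          rw [L.ord_one]
      have h4 : 0 ≤ p.ord (T ^ 3 + 1) := by
        rwa [L.ge_iff _ _ (by rw [← hW]; exact pow_ne_zero _ hW0)] at h3
      rw [max_eq_left (by omega), max_eq_left (by omega)]
      omega
  have hfin : ∀ f : K, f ≠ 0 → (Function.support fun p : Pl k K => max 0 (-p.ord f)).Finite := by
    intro f hf
    apply (h2 k K hK f hf).subset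
    intro p hp
    rw [Function.mem_support] at hp
    intro h0
    apply hp
    rw [h0]
    simp
  unfold Pl.poles
  rw [mul_finsum, mul_finsum]
  exact finsum_congr key

/-- extension of a derivation of a subfield -/
theorem AB_ext {k K : Type} [Field k] [CharZero k] [Field K] [Algebra k K] (hD : ST_DEREXT)
    (M : IntermediateField k K) (δ' : Derivation k M M) :
    ∃ δ : Derivation k K K, ∀ f : M, δ (f : K) = (δ' f : K) := by
  obtain ⟨D, hD'⟩ := (hD M K ((Algebra.linearMap M K).compDer (δ'.restrictScalars ℤ))).1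
  have hk : ∀ c : k, D (algebraMap k K c) = 0 := by
    intro c
    have h1 := hD' (algebraMap k M c)
    have h2 : ((Algebra.linearMap M K).compDer (δ'.restrictScalars ℤ)) (algebraMap k M c) =
        ((δ' (algebraMap k M c) : M) : K) := rfl
    rw [h2, Derivation.map_algebraMap] at h1
    exact h1
  refine ⟨Derivation.mk' { toFun := D, map_add' := map_add D, map_smul' := ?_ } ?_, ?_⟩
  · intro c f
    show D (c • f) = c • D f
    rw [Algebra.smul_def c f, Derivation.leibniz, hk, smul_zero, add_zero,
      Algebra.smul_def c (D f), smul_eq_mul]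
  · intro a b
    exact D.leibniz a b
  · intro f
    exact hD' f

/-- **AB** -/
theorem st_AB (hAG : ST_AGEN) (hDER : ST_DER) (hS : ST_SUBFF) (hPLM : ST_PLM) (hRH : ST_RH)
    (hKI : ST_KAPIND) (h1 : ST_PL1) (h2 : ST_PL2) (hDE : ST_DEREXT) : ST_AB := by
  intro k0 k K _ _ _ _ _ _ _ _ b hb hK
  by_cases hδ : ∃ δ : Derivation k K K, δ ≠ 0
  · obtain ⟨δ0, hδ0⟩ := hδ
    refine ⟨6 * Pl.kap δ0, ?_⟩
    intro T W X Y hP hT
    let M : IntermediateField k K := adjoin k {T, W, X, Y}
    have hTM : T ∈ M := IntermediateField.subset_adjoin k _ (by simp)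
    have hWM : W ∈ M := IntermediateField.subset_adjoin k _ (by simp)
    have hXM : X ∈ M := IntermediateField.subset_adjoin k _ (by simp)
    have hYM : Y ∈ M := IntermediateField.subset_adjoin k _ (by simp)
    obtain ⟨hM, hfd⟩ := hS k K hK M ⟨T, hTM, hT⟩
    let _ : Algebra k0 M := ((algebraMap k M).comp (algebraMap k0 k)).toAlgebra
    have : IsScalarTower k0 k M := IsScalarTower.of_algebraMap_eq (fun _ => rfl)
    let T' : M := ⟨T, hTM⟩
    let W' : M := ⟨W, hWM⟩
    let X' : M := ⟨X, hXM⟩
    let Y' : M := ⟨Y, hYM⟩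
    have hT' : Transcendental k T' := by
      intro h
      exact hT (h.algebraMap (A := K))
    have hQ : ((Qf b T' : M) : K) = Qf b T := by
      unfold Qf
      rw [show ((∑ j : Fin 10, algebraMap k M (b j) * T' ^ (j : ℕ) : M) : K) =
        algebraMap M K (∑ j : Fin 10, algebraMap k M (b j) * T' ^ (j : ℕ)) from rfl, map_sum]
      exact Finset.sum_congr rfl fun j _ => by rw [map_mul, map_pow]; rfl
    have hP' : Pt b T' W' X' Y' := by
      constructor
      · exact Subtype.ext hP.e1
      · apply Subtype.ext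
        have h3 := hP.e2
        rw [← hQ] at h3
        exact h3
    obtain ⟨d⟩ := hDER k0 k M b hb hM T' W' hP'.e1 hT'
    have htop : adjoin k ({T', W', X', Y'} : Set M) = ⊤ := by
      have h3 : (adjoin k ({T', W', X', Y'} : Set M)).map M.val = M := by
        rw [IntermediateField.adjoin_map]
        have h4 : (M.val : M → K) '' {T', W', X', Y'} = {T, W, X, Y} := by
          rw [Set.image_insert_eq, Set.image_insert_eq, Set.image_insert_eq, Set.image_singleton]
          rfl
        rw [h4]
      rw [eq_top_iff]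
      intro f _
      have h5 : (f : K) ∈ (adjoin k ({T', W', X', Y'} : Set M)).map M.val := by
        rw [h3]
        exact f.2
      obtain ⟨g, hg, hgf⟩ := h5
      have h6 : g = f := Subtype.ext hgf
      rw [← h6]
      exact hg
    have hA := hAG k0 k M b T' W' X' Y' d hb hM hP' hT' htop
    obtain ⟨δ, hδ⟩ := AB_ext hDE M d.δ
    have hδne : δ ≠ 0 := by
      rintro rfl
      have h3 := hδ T'
      rw [d.δT] at h3
      have h4 : (2 * W : K) = 0 := by
        have : ((2 * W' : M) : K) = 2 * W := by push_cast; rfl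
        rw [← this, ← h3]
        rfl
      have h5 : (2 : K) ≠ 0 := by
        have := (algebraMap k K).injective
        have h6 : algebraMap k K 2 ≠ 0 := (map_ne_zero _).2 two_ne_zero
        rwa [map_ofNat] at h6
      exact (mul_ne_zero h5 (AB_ne hP.e1 hT).2) h4
    have hR := hRH k K hK M hM δ d.δ hδne hδ
    rw [hKI k K hK δ δ0 hδne hδ0] at hR
    have hPM : Pl.poles (k := k) T = Module.finrank M K * Pl.poles (k := k) T' :=
      hPLM k K hK M hM T'
    have hn : (0 : ℤ) ≤ (Module.finrank M K : ℤ) := Int.natCast_nonneg _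
    have hTle : Pl.poles (k := k) T ≤ 4 * Pl.kap δ0 := by
      rw [hPM]
      calc (Module.finrank M K : ℤ) * Pl.poles (k := k) T'
          ≤ (Module.finrank M K : ℤ) * (4 * Pl.kap d.δ) := mul_le_mul_of_nonneg_left hA hn
        _ = 4 * ((Module.finrank M K : ℤ) * Pl.kap d.δ) := by ring
        _ ≤ 4 * Pl.kap δ0 := by linarith
    have hT0 : 0 ≤ Pl.poles (k := k) T := finsum_nonneg fun p => le_max_left _ _
    have hWT := AB_polesW h1 h2 hK T W hP.e1 hT
    constructor <;> linarith
  · refine ⟨0, ?_⟩
    intro T W X Y hP hT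
    exfalso
    apply hδ
    let M : IntermediateField k K := adjoin k {T, W, X, Y}
    have hTM : T ∈ M := IntermediateField.subset_adjoin k _ (by simp)
    have hWM : W ∈ M := IntermediateField.subset_adjoin k _ (by simp)
    obtain ⟨hM, hfd⟩ := hS k K hK M ⟨T, hTM, hT⟩
    let _ : Algebra k0 K := ((algebraMap k K).comp (algebraMap k0 k)).toAlgebra
    have : IsScalarTower k0 k K := IsScalarTower.of_algebraMap_eq (fun _ => rfl)
    obtain ⟨d⟩ := hDER k0 k K b hb hK T W hP.e1 hT
    refine ⟨d.δ, ?_⟩
    intro h0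
    have h3 := d.δT
    rw [h0] at h3
    have h5 : (2 : K) ≠ 0 := by
      have h6 : algebraMap k K 2 ≠ 0 := (map_ne_zero _).2 two_ne_zero
      rwa [map_ofNat] at h6
    exact (mul_ne_zero h5 (AB_ne hP.e1 hT).2) h3.symm

end Pool.Agent.Helper8.SPV
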