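import Pool.Agent.Helper38.SPV.HARTOGS

/-! # `ST_DVR1`: the local rings at points of codimension one of a smooth scheme -/

set_option autoImplicit false

namespace Pool.Agent.Helper8.SPV

open AlgebraicGeometry CategoryTheory CategoryTheory.Limits

theorem DVR1_frac {R K : Type} [CommRing R] [IsDomain R] [Field K] [Algebra R K]
    [IsFractionRing R K] : IsFractionRing (algebraMap R K).range K := by
  refine ⟨?_, ?_, ?_⟩
  · rintro ⟨y, hy⟩
    have h1 : (y : K) ≠ 0 := by
      intro h
      exact nonZeroDivisors.ne_zero hy (Subtype.ext h)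
    exact IsUnit.mk0 _ h1
  · intro f
    obtain ⟨a, b, hb, hab⟩ := IsFractionRing.div_surjective (A := R) f
    have hb0 : algebraMap R K b ≠ 0 := by
      intro h
      have h1 : b = 0 := IsFractionRing.injective R K (by rw [h, map_zero])
      exact nonZeroDivisors.ne_zero hb h1
    refine ⟨⟨⟨algebraMap R K a, a, rfl⟩, ⟨⟨algebraMap R K b, b, rfl⟩, ?_⟩⟩, ?_⟩
    · rw [mem_nonZeroDivisors_iff_ne_zero]
      intro h0
      exact hb0 (congrArg Subtype.val h0)
    · show f * algebraMap R K b = algebraMap R K a
      rw [← hab]
      field_simp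
  · intro x y h
    exact ⟨1, by rw [Subtype.ext (show (x : K) = y from h)]⟩

theorem DVR1_dvr (R : Type) [CommRing R] [IsDomain R] [IsLocalRing R] [IsNoetherianRing R]
    [IsIntegrallyClosed R] (h : ringKrullDim R = 1) : IsDiscreteValuationRing R := by
  have h1 : ¬ IsField R := by
    intro h2
    rw [ringKrullDim_eq_zero_of_isField h2] at h
    exact zero_ne_one h
  have h2 : Ring.KrullDimLE 1 R := by
    rw [Ring.krullDimLE_iff, h]
    rfl
  have h3 := Ring.krullDimLE_one_iff_of_noZeroDivisors.1 h2
  have h4 := (tfae_of_isNoetherianRing_of_isLocalRing_of_isDomain (R := R)).out 3 4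
  have h5 : (IsLocalRing.maximalIdeal R).IsPrincipal := by
    rw [← h4]
    refine ⟨inferInstance, fun P hP hP' => ?_⟩
    exact IsLocalRing.eq_maximalIdeal (h3 P hP hP')
  exact ((IsDiscreteValuationRing.TFAE R h1).out 0 4).2 h5

theorem st_DVR1 : ST_DVR1 := by
  intro k _ _ X _ s _ y hy
  obtain ⟨h1, h2, h3⟩ := HARTOGS_stalk k X s y
  have hfr : IsFractionRing (X.presheaf.stalk y) X.functionField := inferInstance
  have hinj : Function.Injective (algebraMap (X.presheaf.stalk y) X.functionField) :=
    IsFractionRing.injective _ _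
  let e : X.presheaf.stalk y ≃+* (algebraMap (X.presheaf.stalk y) X.functionField).range :=
    RingEquiv.ofBijective (algebraMap (X.presheaf.stalk y) X.functionField).rangeRestrict
      ⟨fun a b hab => hinj (congrArg Subtype.val hab), RingHom.rangeRestrict_surjective _⟩
  refine ⟨?_, ?_⟩
  · show IsDiscreteValuationRing (algebraMap (X.presheaf.stalk y) X.functionField).range
    have h4 : IsLocalRing (algebraMap (X.presheaf.stalk y) X.functionField).range :=
      e.isLocalRing
    have h5 : IsNoetherianRing (algebraMap (X.presheaf.stalk y) X.functionField).range :=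
      isNoetherianRing_of_ringEquiv _ e
    have h6 : IsIntegrallyClosed (algebraMap (X.presheaf.stalk y) X.functionField).range :=
      IsIntegrallyClosed.of_equiv e
    have h7 : ringKrullDim (algebraMap (X.presheaf.stalk y) X.functionField).range = 1 := by
      rw [← ringKrullDim_eq_of_ringEquiv e]
      exact hy
    exact DVR1_dvr _ h7
  · exact DVR1_frac (R := X.presheaf.stalk y) (K := X.functionField)

end Pool.Agent.Helper8.SPV
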