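import Pool.Agent.Helper8.SPV.Stmts3
import Pool.Agent.Helper71.PPProper

/-! # `ST_NGS`: the model is not geometrically-special -/

set_option autoImplicit false

namespace Pool.Agent.Helper8.SPV

open IntermediateField (adjoin)
open AlgebraicGeometry CategoryTheory CategoryTheory.Limits
open Pool.Agent.Helper71 (PP PPtoSpec)

theorem NGS_sep {k : Type} [Field k] {X : Scheme.{0}} {s : X ⟶ Spec (.of k)}
    (h : IsProjVar s) : IsSeparated s := by
  obtain ⟨N, i, hi, rfl⟩ := h.projective
  infer_instance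

/-- the coordinates of the chart `0` -/
theorem NGS_mem {k L : Type} [Field k] [Field L] [Algebra k L] (t w x y : L) (j : Fin 4) :
    (![t, w, x, y] : Fin 4 → L) j ∈ ch k t w x y 0 :=
  Algebra.subset_adjoin ⟨j, rfl⟩

theorem NGS_ft {k L : Type} [Field k] [Field L] [Algebra k L] (t w x y : L) (i : Fin 4) :
    Algebra.FiniteType k (ch k t w x y i) := by
  rw [← Subalgebra.fg_iff_finiteType]
  exact ⟨(Set.finite_range (co t w x y i)).toFinset, by rw [Set.Finite.coe_toFinset]; rfl⟩

/-- **NGS** -/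
theorem st_NGS (hALG : ST_ALG) (h1 : ST_GS1) (h2 : ST_GS2) (h3 : ST_GS3) (h4 : ST_GS4) :
    ST_NGS := by
  intro k0 k L _ _ _ _ _ _ _ _ b t w x y X s c hb hES hM hG
  have hint := hM.proj.integral
  have hsep := NGS_sep hM.proj
  have hj : IsOpenImmersion (c 0) := hM.isOpen 0
  have hjs : c 0 ≫ s = Spec.map (CommRingCat.ofHom (algebraMap k (ch k t w x y 0))) :=
    hM.isOver 0
  have hdom : IsDomain (ch k t w x y 0) := inferInstance
  have hft := NGS_ft (k := k) t w x y 0
  have hU : Dense ((c 0).opensRange : Set X) := by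
    apply (c 0).opensRange.isOpen.dense
    have : Nonempty (Spec (.of (ch k t w x y 0))) := inferInstance
    obtain ⟨z⟩ := this
    exact ⟨c 0 z, ⟨z, rfl⟩⟩
  obtain ⟨C, sC, hC, cc, u, f, hf, hcs, hus, hur, hcf, hcl⟩ := hG (c 0).opensRange hU
  have hCi := hC.integral
  -- the point of the chart
  let u' : Spec (.of k) ⟶ Spec (.of (ch k t w x y 0)) := IsOpenImmersion.lift (c 0) u (by
    intro z hz
    exact hur hz)
  have hu' : u' ≫ c 0 = u := IsOpenImmersion.lift_fac _ _ _
  let ε0 : CommRingCat.of (ch k t w x y 0) ⟶ CommRingCat.of k := Spec.preimage u'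
  have hε0 : Spec.map ε0 = u' := Spec.map_preimage _
  have hε1 : CommRingCat.ofHom (algebraMap k (ch k t w x y 0)) ≫ ε0 = 𝟙 _ := by
    apply Spec.map_injective
    rw [Spec.map_comp, hε0, ← hjs, ← Category.assoc, hu', hus, Spec.map_id]
  let ε : ch k t w x y 0 →ₐ[k] k :=
    { ε0.hom with
      commutes' := by
        intro a
        have := congrArg (fun g => g.hom a) hε1
        exact this }
  have hε : CommRingCat.ofHom (ε : ch k t w x y 0 →+* k) = ε0 := rfl
  have hfs : ∀ i, f i ≫ s = sC := by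
    intro i
    rw [← hf i, Category.id_comp]
  -- the points over the function field
  have hφ := fun i => h3 k C sC hC (ch k t w x y 0) X s (c 0) hjs cc (f i) ε hcs (hfs i) (by
    rw [hε, hε0, hu', hcf i])
  choose φ hφ1 hφ2 using hφ
  obtain ⟨p, hp⟩ := h2 k C sC hC cc hcs
  have hff := h1 k C sC hC
  have hpM : ∀ i (a : ch k t w x y 0), p.M (φ i a - algebraMap k (FF sC) (ε a)) := by
    intro i a
    rcases hφ2 i a with ⟨h5, h6⟩ | h5
    · exact (hp _ h5).2 h6
    · rw [h5]
      exact ⟨p.O.zero_mem, Or.inl rfl⟩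
  let tA : ch k t w x y 0 := ⟨t, NGS_mem t w x y 0⟩
  let wA : ch k t w x y 0 := ⟨w, NGS_mem t w x y 1⟩
  let xA : ch k t w x y 0 := ⟨x, NGS_mem t w x y 2⟩
  let yA : ch k t w x y 0 := ⟨y, NGS_mem t w x y 3⟩
  have e1 : wA ^ 2 = tA ^ 3 + 1 := Subtype.ext hES.pt.e1
  have e2 : yA ^ 2 = xA ^ 3 + xA +
      ∑ j : Fin 10, algebraMap k (ch k t w x y 0) (b j) * tA ^ (j : ℕ) := by
    apply Subtype.ext
    have h5 := hES.pt.e2
    unfold Qf at h5
    have h6 : (((∑ j : Fin 10, algebraMap k (ch k t w x y 0) (b j) * tA ^ (j : ℕ)) :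
        ch k t w x y 0) : L) = ∑ j : Fin 10, algebraMap k L (b j) * t ^ (j : ℕ) := by
      rw [show (((∑ j : Fin 10, algebraMap k (ch k t w x y 0) (b j) * tA ^ (j : ℕ)) :
        ch k t w x y 0) : L) = (ch k t w x y 0).val
          (∑ j : Fin 10, algebraMap k (ch k t w x y 0) (b j) * tA ^ (j : ℕ)) from rfl, map_sum]
      exact Finset.sum_congr rfl fun j _ => by rw [map_mul, map_pow]; rfl
    rw [← h6] at h5
    exact h5
  have hfin : (Set.range fun i => φ i tA).Finite := by
    apply (hALG k0 k (FF sC) b hb hff p (ε tA) (ε wA)).subset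
    rintro _ ⟨i, rfl⟩
    refine ⟨φ i wA, φ i xA, φ i yA, ⟨?_, ?_⟩, hpM i tA, hpM i wA⟩
    · have := congrArg (φ i) e1
      simpa using this
    · have := congrArg (φ i) e2
      rw [map_pow, map_add, map_add, map_pow, map_sum] at this
      rw [this]
      unfold Qf
      congr 1
      exact Finset.sum_congr rfl fun j _ => by rw [map_mul, map_pow, AlgHom.commutes]
  have htr : Transcendental k tA := by
    intro h5
    have h6 : IsAlgebraic k t := h5.algebraMap (A := L)
    have h7 := hES.indep.transcendental 0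
    exact h7 h6
  exact h4 k C sC hC (ch k t w x y 0) X s (c 0) hjs f hf φ hφ1 tA htr hfin hcl

end Pool.Agent.Helper8.SPV
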